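import Pool.Agent.Work.MP_db9399_all.Interface

/-!
# Block EXPO: exposure of one more position
-/

set_option autoImplicit false

namespace Pool.Agent.Work.MP_db9399_all

open Finset Classical

universe u v

namespace H72EXPO

variable {J : Type u} {n : ℕ}

/-- the unused colours -/
noncomputable def un (Q : Finset (J × Fin n)) (j : J) (ω : Cfg J n) : Finset (Fin n) :=
  univ.filter (fun b => ∀ p ∈ Q, p.1 = j → ω j p.2 ≠ b)

theorem le_card_un (Q : Finset (J × Fin n)) (j : J) (ω : Cfg J n) :
    n ≤ (un Q j ω).card + (Q.filter (fun p => p.1 = j)).card := by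
  have h1 : (univ : Finset (Fin n)) ⊆ un Q j ω ∪ (Q.filter (fun p => p.1 = j)).image
      (fun p => ω j p.2) := by
    intro b _
    rw [Finset.mem_union]
    by_cases h : b ∈ un Q j ω
    · exact Or.inl h
    · right
      unfold un at h
      rw [Finset.mem_filter, not_and] at h
      have := h (mem_univ _)
      push Not at this
      obtain ⟨p, hp, hpj, hpb⟩ := this
      exact Finset.mem_image.2 ⟨p, Finset.mem_filter.2 ⟨hp, hpj⟩, hpb⟩
  have h2 := (Finset.card_le_card h1).trans (Finset.card_union_le _ _)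
  rw [Finset.card_univ, Fintype.card_fin] at h2
  exact h2.trans (Nat.add_le_add_left Finset.card_image_le _)

/-- exchange of the colours `ω j s` and `b` in the block `j` -/
noncomputable def sw (j : J) (s : Fin n) (z : Cfg J n × Fin n) : Cfg J n × Fin n :=
  (Function.update z.1 j (Equiv.swap (z.1 j s) z.2 * z.1 j), z.1 j s)

theorem sw_val (j : J) (s : Fin n) (z : Cfg J n × Fin n) : (sw j s z).1 j s = z.2 := by
  unfold sw
  simp

theorem sw_sw (j : J) (s : Fin n) (z : Cfg J n × Fin n) : sw j s (sw j s z) = z := by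
  have h := sw_val j s z
  refine Prod.ext ?_ h
  show Function.update (sw j s z).1 j (Equiv.swap ((sw j s z).1 j s) (sw j s z).2 *
    (sw j s z).1 j) = z.1
  rw [h]
  funext i
  by_cases hi : i = j
  · subst hi
    rw [Function.update_self]
    show Equiv.swap z.2 (z.1 i s) * (Function.update z.1 i (Equiv.swap (z.1 i s) z.2 * z.1 i) i) = _
    rw [Function.update_self, Equiv.swap_comm, ← mul_assoc, Equiv.swap_mul_self, one_mul]
  · rw [Function.update_of_ne hi]
    show Function.update z.1 j _ i = _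
    rw [Function.update_of_ne hi]

theorem sw_agree (Q : Finset (J × Fin n)) (j : J) (s : Fin n) (hs : (j, s) ∉ Q)
    (z : Cfg J n × Fin n) (hz : z.2 ∈ un Q j z.1) :
    ∀ p ∈ Q, (sw j s z).1 p.1 p.2 = z.1 p.1 p.2 := by
  intro p hp
  unfold sw
  by_cases hpj : p.1 = j
  · subst hpj
    show (Function.update z.1 p.1 (Equiv.swap (z.1 p.1 s) z.2 * z.1 p.1)) p.1 p.2 = _
    rw [Function.update_self, Equiv.Perm.mul_apply, Equiv.swap_apply_of_ne_of_ne]
    · intro h
      have := (z.1 p.1).injective h
      exact hs (this ▸ hp)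
    · exact (Finset.mem_filter.1 hz).2 p hp rfl
  · show (Function.update z.1 j _) p.1 p.2 = _
    rw [Function.update_of_ne hpj]

theorem un_congr (Q : Finset (J × Fin n)) (j : J) (ω ω' : Cfg J n)
    (h : ∀ p ∈ Q, ω p.1 p.2 = ω' p.1 p.2) : un Q j ω = un Q j ω' := by
  unfold un
  ext b
  simp only [Finset.mem_filter, Finset.mem_univ, true_and]
  constructor
  · intro h1 p hp hpj hb
    refine h1 p hp hpj ?_
    rw [← hb, ← hpj]; exact h p hp
  · intro h1 p hp hpj hb
    refine h1 p hp hpj ?_
    rw [← hb, ← hpj]; exact (h p hp).symm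

theorem mem_un (Q : Finset (J × Fin n)) (j : J) (s : Fin n) (hs : (j, s) ∉ Q) (ω : Cfg J n) :
    ω j s ∈ un Q j ω := by
  unfold un
  rw [Finset.mem_filter]
  refine ⟨mem_univ _, fun p hp hpj h => hs ?_⟩
  have := (ω j).injective h
  rw [← this, ← hpj]
  exact hp

end H72EXPO

open H72EXPO in
theorem stmt_EXPO : Stmt_EXPO.{u} := by
  intro J _ n Q A R j s r hA hR hs hr
  have hΩ : (0 : ℝ) < (Fintype.card (Cfg J n) : ℝ) := by
    have : 0 < Fintype.card (Cfg J n) := Fintype.card_pos
    exact_mod_cast this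
  set q := (Q.filter (fun p => p.1 = j)).card with hq
  set a := (univ.filter (fun ω : Cfg J n => A ω ∧ ω j s ∈ R ω)).card with ha
  set m := (univ.filter (fun ω : Cfg J n => A ω)).card with hm
  set S1 := univ.filter (fun z : Cfg J n × Fin n => (A z.1 ∧ z.1 j s ∈ R z.1) ∧ z.2 ∈ un Q j z.1)
    with hS1
  set S2 := univ.filter (fun z : Cfg J n × Fin n => A z.1 ∧ (z.2 ∈ R z.1 ∧ z.2 ∈ un Q j z.1))
    with hS2
  have h12 : S1.card ≤ S2.card := by
    refine Finset.card_le_card_of_injOn (sw j s) ?_ ?_
    · intro z hz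
      rw [Finset.mem_coe, hS1, Finset.mem_filter] at hz
      obtain ⟨_, ⟨h1, h2⟩, h3⟩ := hz
      have hag := sw_agree Q j s hs z h3
      rw [Finset.mem_coe, hS2, Finset.mem_filter]
      refine ⟨mem_univ _, ?_, ?_, ?_⟩
      · rw [hA _ z.1 hag]; exact h1
      · rw [hR _ z.1 hag]; exact h2
      · rw [un_congr Q j _ z.1 hag]; exact mem_un Q j s hs z.1
    · intro x _ y _ hxy
      rw [← sw_sw j s x, ← sw_sw j s y, hxy]
  have h1 : a * n ≤ S1.card + a * q := by
    have e1 : S1.card = ∑ ω ∈ univ.filter (fun ω : Cfg J n => A ω ∧ ω j s ∈ R ω),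
        (un Q j ω).card := by
      rw [hS1, Finset.card_filter, Fintype.sum_prod_type, Finset.sum_filter]
      refine Finset.sum_congr rfl fun ω _ => ?_
      split_ifs with h
      · rw [Finset.card_eq_sum_ones, ← Finset.sum_filter]
        refine Finset.sum_congr ?_ fun _ _ => rfl
        ext b; simp [h]
      · exact Finset.sum_eq_zero fun b _ => if_neg fun h' => h h'.1
    rw [e1, ha, Finset.card_eq_sum_ones, Finset.sum_mul, Finset.sum_mul, ← Finset.sum_add_distrib]
    refine Finset.sum_le_sum fun ω _ => ?_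
    rw [one_mul, one_mul]
    exact le_card_un Q j ω
  have h2 : S2.card ≤ m * r := by
    have e2 : S2.card = ∑ ω ∈ univ.filter (fun ω : Cfg J n => A ω),
        ((R ω).filter (fun b => ∀ p ∈ Q, p.1 = j → ω j p.2 ≠ b)).card := by
      rw [hS2, Finset.card_filter, Fintype.sum_prod_type, Finset.sum_filter]
      refine Finset.sum_congr rfl fun ω _ => ?_
      split_ifs with h
      · rw [Finset.card_eq_sum_ones, ← Finset.sum_filter]
        refine Finset.sum_congr ?_ fun _ _ => rfl
        ext b; simp [h, un]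
      · exact Finset.sum_eq_zero fun b _ => if_neg fun h' => h h'.1
    rw [e2, hm, Finset.card_eq_sum_ones, Finset.sum_mul]
    refine Finset.sum_le_sum fun ω hω => ?_
    rw [one_mul]
    exact hr ω (Finset.mem_filter.1 hω).2
  have h3 : (a : ℝ) * n ≤ m * r + a * q := by
    have : a * n ≤ m * r + a * q := by omega
    exact_mod_cast this
  unfold pr
  rw [← mul_div_assoc, ← mul_div_assoc, div_le_div_iff_of_pos_right hΩ]
  have h4 : ((n : ℝ) - q) * (a : ℝ) ≤ r * (m : ℝ) := by nlinarith [h3]
  refine le_trans (le_of_eq ?_) (h4.trans (le_of_eq ?_))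
  · rw [ha]; congr
  · rw [hm]

end Pool.Agent.Work.MP_db9399_all
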