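import Pool.Agent.Work.MP_db9399_all_helper72.LOP

/-!
# Block LLLK: weighted local lemma for random permutations, canonical events and packages
-/

set_option autoImplicit false

namespace Pool.Agent.Work.MP_db9399_all

open Finset Classical

universe u v

namespace H72LLLK

variable {J : Type u} {n : ℕ}

/-- the values of `ω` on `Q` as a set of atoms -/
noncomputable def gr (Q : Finset (J × Fin n)) (ω : Cfg J n) : Finset (J × Fin n × Fin n) :=
  Q.image (fun p => (p.1, p.2, ω p.1 p.2))

theorem holds_gr (Q : Finset (J × Fin n)) (ω ω' : Cfg J n) :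
    Holds ω' (gr Q ω) ↔ ∀ p ∈ Q, ω' p.1 p.2 = ω p.1 p.2 := by
  unfold Holds gr
  constructor
  · intro h p hp
    exact h _ (Finset.mem_image_of_mem _ hp)
  · intro h α hα
    obtain ⟨p, hp, rfl⟩ := Finset.mem_image.1 hα
    exact h p hp

theorem gr_inj (ω : Cfg J n) :
    Function.Injective (fun p : J × Fin n => ((p.1, p.2, ω p.1 p.2) : J × Fin n × Fin n)) := by
  intro p q h
  have h1 := congrArg Prod.fst h
  have h2 := congrArg (fun x => x.2.1) h
  exact Prod.ext h1 h2

theorem sum_gr (Q : Finset (J × Fin n)) (ω : Cfg J n) (T : J → Fin n → ℝ) :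
    ∑ β ∈ gr Q ω, T β.1 β.2.1 = ∑ p ∈ Q, T p.1 p.2 := by
  unfold gr
  rw [Finset.sum_image fun p _ q _ h => gr_inj ω h]

theorem pr_nonneg {Ω : Type u} [Fintype Ω] (E : Ω → Prop) : 0 ≤ pr E := by
  unfold pr; positivity

variable [Fintype J]

/-- the canonical events of an event depending on `Q` -/
noncomputable def can (Q : Finset (J × Fin n)) (E : Cfg J n → Prop) :
    Finset (Finset (J × Fin n × Fin n)) := (univ.filter E).image (gr Q)

theorem sum_can (Q : Finset (J × Fin n)) (E : Cfg J n → Prop) (hE : DepOn Q E) :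
    ∑ g ∈ can Q E, pr (fun ω : Cfg J n => Holds ω g) = pr E := by
  unfold pr
  rw [← Finset.sum_div, ← Nat.cast_sum]
  congr 2
  rw [Finset.card_eq_sum_card_fiberwise (f := gr Q) (t := can Q E)
    (fun ω hω => Finset.mem_image_of_mem _ hω)]
  refine Finset.sum_congr rfl fun g hg => ?_
  obtain ⟨ω, hω, rfl⟩ := Finset.mem_image.1 hg
  congr 1
  ext ω'
  simp only [Finset.mem_filter, Finset.mem_univ, true_and]
  rw [holds_gr]
  constructor
  · intro h
    refine ⟨?_, ?_⟩
    · have := hE ω' ω h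
      rw [this]
      exact (Finset.mem_filter.1 hω).2
    · unfold gr
      refine Finset.image_congr fun p hp => ?_
      have := h p hp
      simp only [this]
  · rintro ⟨_, h2⟩
    rw [← holds_gr, ← h2, holds_gr]
    exact fun _ _ => rfl

end H72LLLK

open H72LLLK in
theorem stmt_LLLK (hAL : Stmt_AL.{u, u}) : Stmt_LLLK.{u} := by
  intro J _ n ι _ R _ B T Bl W P hB hT0 hT4 hPack hsum
  choose κ fκ Q E hdep hne hbl hw himp using hPack
  letI : ∀ r, Fintype (κ r) := fκ
  set I := ι ⊕ (Σ r : R, Σ k : κ r, {g // g ∈ can (Q r k) (E r k)}) with hI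
  set ev : I → Finset (J × Fin n × Fin n) := Sum.elim B (fun z => z.2.2.1) with hev
  set x : I → ℝ := fun i => pr (fun ω : Cfg J n => Holds ω (ev i)) *
    Real.exp (2 * ∑ β ∈ ev i, T β.1 β.2.1) with hx
  have hx0 : ∀ i, 0 ≤ x i := fun i => mul_nonneg (pr_nonneg _) (Real.exp_pos _).le
  have hcan : ∀ r (k : κ r) g, g ∈ can (Q r k) (E r k) → g.Nonempty ∧ (∀ α ∈ g, α.1 ∈ Bl r) ∧
      ∑ β ∈ g, T β.1 β.2.1 = ∑ p ∈ Q r k, T p.1 p.2 := by
    intro r k g hg
    obtain ⟨ω, hω, rfl⟩ := Finset.mem_image.1 hg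
    refine ⟨(hne r k).image _, fun α hα => ?_, sum_gr _ _ _⟩
    obtain ⟨p, hp, rfl⟩ := Finset.mem_image.1 hα
    exact hbl r k p hp
  have hevne : ∀ i, (ev i).Nonempty := by
    rintro (i | ⟨r, k, g, hg⟩)
    · exact hB i
    · exact (hcan r k g hg).1
  have hbound : ∀ j s a, ∑ b, (if Touch (ev b) j s a then x b else 0) ≤ T j s := by
    intro j s a
    refine le_trans ?_ (hsum j s a)
    rw [Fintype.sum_sum_type]
    refine add_le_add ?_ ?_
    · rw [Finset.sum_filter]
      exact le_of_eq (Finset.sum_congr rfl fun i _ => rfl)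
    · rw [Fintype.sum_sigma, Finset.sum_filter]
      refine Finset.sum_le_sum fun r _ => ?_
      rw [Fintype.sum_sigma]
      split_ifs with hj
      · refine le_trans (Finset.sum_le_sum fun k _ => ?_) (hw r)
        calc ∑ g : {g // g ∈ can (Q r k) (E r k)},
              (if Touch (ev (Sum.inr ⟨r, k, g⟩)) j s a then x (Sum.inr ⟨r, k, g⟩) else 0)
            ≤ ∑ g : {g // g ∈ can (Q r k) (E r k)},
              pr (fun ω : Cfg J n => Holds ω g.1) * Real.exp (2 * ∑ p ∈ Q r k, T p.1 p.2) := by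
              refine Finset.sum_le_sum fun g _ => ?_
              have e : x (Sum.inr ⟨r, k, g⟩) =
                  pr (fun ω : Cfg J n => Holds ω g.1) * Real.exp (2 * ∑ p ∈ Q r k, T p.1 p.2) := by
                show pr (fun ω : Cfg J n => Holds ω g.1) *
                  Real.exp (2 * ∑ β ∈ g.1, T β.1 β.2.1) = _
                rw [(hcan r k g.1 g.2).2.2]
              rw [← e]
              split_ifs
              · exact le_rfl
              · exact hx0 _
          _ = (∑ g ∈ can (Q r k) (E r k), pr (fun ω : Cfg J n => Holds ω g)) *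
                Real.exp (2 * ∑ p ∈ Q r k, T p.1 p.2) := by
              rw [Finset.sum_mul]
              exact Finset.sum_coe_sort (can (Q r k) (E r k))
                (fun g => pr (fun ω : Cfg J n => Holds ω g) * Real.exp (2 * ∑ p ∈ Q r k, T p.1 p.2))
          _ = _ := by rw [sum_can _ _ (hdep r k)]
      · refine le_of_eq (Finset.sum_eq_zero fun k _ => Finset.sum_eq_zero fun g _ => ?_)
        rw [if_neg]
        rintro ⟨β, hβ, hβj, _⟩
        exact hj (hβj ▸ (hcan r k g.1 g.2).2.1 β hβ)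
  have hself : ∀ i, ∀ α ∈ ev i, x i ≤ T α.1 α.2.1 := by
    intro i α hα
    refine le_trans ?_ (hbound α.1 α.2.1 α.2.2)
    have h1 : x i = if Touch (ev i) α.1 α.2.1 α.2.2 then x i else 0 := by
      rw [if_pos]
      exact ⟨α, hα, rfl, Or.inl rfl⟩
    rw [h1]
    exact Finset.single_le_sum (f := fun b => if Touch (ev b) α.1 α.2.1 α.2.2 then x b else 0)
      (fun b _ => by split_ifs; exacts [hx0 b, le_rfl]) (Finset.mem_univ i)
  obtain ⟨ω, hω⟩ := hAL (Cfg J n) I (fun i ω => Holds ω (ev i))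
    (fun i k => ∃ α ∈ ev i, Touch (ev k) α.1 α.2.1 α.2.2)
    (fun i => pr (fun ω : Cfg J n => Holds ω (ev i))) x hx0
    (fun i => by
      obtain ⟨α, hα⟩ := hevne i
      linarith [hself i α hα, hT4 α.1 α.2.1])
    (fun i S hS => by
      have h := stmt_LOP J n (ev i) (S.image ev) (by
        intro B hB α hα ht
        obtain ⟨k, hk, rfl⟩ := Finset.mem_image.1 hB
        exact hS k hk ⟨α, hα, ht⟩)
      have e : ∀ ω : Cfg J n, (∀ B ∈ S.image ev, ¬ Holds ω B) ↔ ∀ k ∈ S, ¬ Holds ω (ev k) := by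
        intro ω
        simp
      simp only [e] at h
      exact h)
    (fun i => by
      show _ ≤ pr (fun ω : Cfg J n => Holds ω (ev i)) * Real.exp (2 * ∑ β ∈ ev i, T β.1 β.2.1)
      refine mul_le_mul_of_nonneg_left (Real.exp_le_exp.2 ?_) (pr_nonneg _)
      refine mul_le_mul_of_nonneg_left ?_ (by norm_num)
      rw [Finset.sum_filter]
      calc _ ≤ ∑ k, ∑ α ∈ ev i, (if Touch (ev k) α.1 α.2.1 α.2.2 then x k else 0) := by
            refine Finset.sum_le_sum fun k _ => ?_
            have hnn : ∀ α ∈ ev i, 0 ≤ (if Touch (ev k) α.1 α.2.1 α.2.2 then x k else 0) :=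
              fun α _ => by split_ifs; exacts [hx0 k, le_rfl]
            split_ifs with h
            · obtain ⟨α, hα, ht⟩ := h
              calc x k = if Touch (ev k) α.1 α.2.1 α.2.2 then x k else 0 := by rw [if_pos ht]
                _ ≤ _ := Finset.single_le_sum
                  (f := fun α => if Touch (ev k) α.1 α.2.1 α.2.2 then x k else 0) hnn hα
            · exact Finset.sum_nonneg hnn
        _ = ∑ α ∈ ev i, ∑ k, (if Touch (ev k) α.1 α.2.1 α.2.2 then x k else 0) :=
            Finset.sum_comm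
        _ ≤ ∑ α ∈ ev i, T α.1 α.2.1 := Finset.sum_le_sum fun α _ => hbound _ _ _)
  refine ⟨ω, fun i => hω (Sum.inl i), fun r => himp r ω fun k hk => ?_⟩
  have hg : gr (Q r k) ω ∈ can (Q r k) (E r k) :=
    Finset.mem_image_of_mem _ (Finset.mem_filter.2 ⟨Finset.mem_univ _, hk⟩)
  exact hω (Sum.inr ⟨r, k, ⟨_, hg⟩⟩) ((holds_gr _ _ _).2 fun _ _ => rfl)

end Pool.Agent.Work.MP_db9399_all
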