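import Pool.Agent.Work.MP_db9399_all.Interface

/-!
# Block LOP: lopsided lemma for independent random permutations
-/

set_option autoImplicit false

namespace Pool.Agent.Work.MP_db9399_all

open Finset Classical

universe u v

namespace H72LOP

theorem exists_perm {n : ℕ} (P : Finset (Fin n)) (b : Fin n → Fin n)
    (hb : Set.InjOn b (P : Set (Fin n))) :
    ∃ σ : Equiv.Perm (Fin n), (∀ a ∈ P, σ a = b a) ∧ ∀ y, y ∉ P → σ y = y ∨ σ y ∈ P := by
  induction P using Finset.induction_on with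
  | empty => exact ⟨1, by simp, fun y _ => Or.inl rfl⟩
  | insert a P ha ih =>
    obtain ⟨σ, h1, h2⟩ := ih (hb.mono (by simp))
    refine ⟨Equiv.swap (σ a) (b a) * σ, ?_, ?_⟩
    · intro x hx
      rw [Finset.mem_insert] at hx
      rcases hx with rfl | hx
      · simp
      · have hne : x ≠ a := fun h => ha (h ▸ hx)
        rw [Equiv.Perm.mul_apply, h1 x hx, Equiv.swap_apply_of_ne_of_ne]
        · rw [← h1 x hx]
          exact fun h => hne (σ.injective h)
        · intro h
          exact hne (hb (by simp [hx]) (by simp) h)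
    · intro y hy
      rw [Finset.mem_insert, not_or] at hy
      rw [Equiv.Perm.mul_apply]
      have hca : σ a ∈ insert a P := by
        rcases h2 a ha with h | h
        · rw [h]; exact Finset.mem_insert_self _ _
        · exact Finset.mem_insert_of_mem h
      have hyc : σ y ≠ σ a := fun h => hy.1 (σ.injective h)
      by_cases hyb : σ y = b a
      · right
        rw [hyb, Equiv.swap_apply_right]
        exact hca
      · rw [Equiv.swap_apply_of_ne_of_ne hyc hyb]
        rcases h2 y hy.2 with h | h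
        · exact Or.inl h
        · exact Or.inr (Finset.mem_insert_of_mem h)

section
variable {J : Type u} {n : ℕ}

/-- same values on the classes of `A` -/
def Sim (A : Finset (J × Fin n × Fin n)) (ω ω' : Cfg J n) : Prop :=
  ∀ α ∈ A, ω α.1 α.2.1 = ω' α.1 α.2.1

theorem sim_symm {A : Finset (J × Fin n × Fin n)} {ω ω' : Cfg J n} (h : Sim A ω ω') :
    Sim A ω' ω := fun α hα => (h α hα).symm

theorem card_sim_le [Fintype J] (A : Finset (J × Fin n × Fin n)) (ω₀ : Cfg J n)
    (h0 : Holds ω₀ A) (ω : Cfg J n) :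
    (univ.filter (fun ω' : Cfg J n => Sim A ω' ω)).card ≤
      (univ.filter (fun ω' : Cfg J n => Holds ω' A)).card := by
  refine Finset.card_le_card_of_injOn (fun ω' j => (ω₀ j * (ω j)⁻¹) * ω' j) ?_ ?_
  · intro ω' hω'
    rw [Finset.mem_coe, Finset.mem_filter] at hω'
    rw [Finset.mem_coe, Finset.mem_filter]
    refine ⟨mem_univ _, fun α hα => ?_⟩
    show (ω₀ α.1 * (ω α.1)⁻¹) (ω' α.1 α.2.1) = α.2.2
    rw [hω'.2 α hα, Equiv.Perm.mul_apply, Equiv.Perm.inv_def, Equiv.symm_apply_apply]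
    exact h0 α hα
  · intro x _ y _ hxy
    funext j
    exact mul_left_cancel (congrFun hxy j)

theorem card_avoid_le [Fintype J] (A : Finset (J × Fin n × Fin n))
    (S : Finset (Finset (J × Fin n × Fin n)))
    (hS : ∀ B ∈ S, ∀ α ∈ A, ¬ Touch B α.1 α.2.1 α.2.2) (ω₀ : Cfg J n)
    (h0 : Holds ω₀ A) (ω' : Cfg J n) :
    (univ.filter (fun ω : Cfg J n => Holds ω A ∧ ∀ B ∈ S, ¬ Holds ω B)).card ≤
      (univ.filter (fun ω : Cfg J n => Sim A ω ω' ∧ ∀ B ∈ S, ¬ Holds ω B)).card := by
  set P : J → Finset (Fin n) := fun j => univ.filter (fun a => ∃ s, (j, s, a) ∈ A) with hP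
  have hex : ∀ j, ∃ σ : Equiv.Perm (Fin n), (∀ a ∈ P j, σ a = (ω' j * (ω₀ j)⁻¹) a) ∧
      ∀ y, y ∉ P j → σ y = y ∨ σ y ∈ P j := fun j =>
    exists_perm (P j) _ (Equiv.injective _).injOn
  choose σ h1 h2 using hex
  refine Finset.card_le_card_of_injOn (fun ω j => σ j * ω j) ?_ ?_
  · intro ω hω
    rw [Finset.mem_coe, Finset.mem_filter] at hω
    rw [Finset.mem_coe, Finset.mem_filter]
    refine ⟨mem_univ _, fun α hα => ?_, fun B hB hh => hω.2.2 B hB fun β hβ => ?_⟩
    · show σ α.1 (ω α.1 α.2.1) = ω' α.1 α.2.1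
      have hmem : α.2.2 ∈ P α.1 := by
        rw [hP]; exact Finset.mem_filter.2 ⟨mem_univ _, α.2.1, hα⟩
      rw [hω.2.1 α hα, h1 _ _ hmem, ← h0 α hα, Equiv.Perm.mul_apply, Equiv.Perm.inv_def, Equiv.symm_apply_apply]
    · have hβ' : σ β.1 (ω β.1 β.2.1) = β.2.2 := hh β hβ
      have hc : β.2.2 ∉ P β.1 := by
        intro hc
        obtain ⟨_, s, hs⟩ := Finset.mem_filter.1 hc
        exact hS B hB _ hs ⟨β, hβ, rfl, Or.inr rfl⟩
      have hy : ω β.1 β.2.1 ∉ P β.1 := by
        intro hy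
        obtain ⟨_, s, hs⟩ := Finset.mem_filter.1 hy
        have h3 : ω β.1 s = ω β.1 β.2.1 := hω.2.1 _ hs
        have h4 : s = β.2.1 := (ω β.1).injective h3
        exact hS B hB _ hs ⟨β, hβ, rfl, Or.inl h4.symm⟩
      rcases h2 _ _ hy with h | h
      · rw [← hβ']; exact h.symm
      · rw [hβ'] at h; exact absurd h hc
  · intro x _ y _ hxy
    funext j
    exact mul_left_cancel (congrFun hxy j)

end

end H72LOP

open H72LOP in
theorem stmt_LOP : Stmt_LOP.{u} := by
  intro J _ n A S hS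
  have hΩ : (0 : ℝ) < (Fintype.card (Cfg J n) : ℝ) := by
    have : 0 < Fintype.card (Cfg J n) := Fintype.card_pos
    exact_mod_cast this
  by_cases hne : ∃ ω₀ : Cfg J n, Holds ω₀ A
  swap
  · have h1 : (univ.filter (fun ω : Cfg J n => Holds ω A ∧ ∀ B ∈ S, ¬ Holds ω B)) = ∅ := by
      rw [Finset.filter_eq_empty_iff]
      intro ω _ h
      exact hne ⟨ω, h.1⟩
    rw [h1, Finset.card_empty, Nat.cast_zero]
    unfold pr
    positivity
  obtain ⟨ω₀, h0⟩ := hne
  unfold pr
  rw [div_mul_eq_mul_div, le_div_iff₀ hΩ]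
  have key : (univ.filter (fun ω : Cfg J n => Holds ω A ∧ ∀ B ∈ S, ¬ Holds ω B)).card *
      Fintype.card (Cfg J n) ≤ (univ.filter (fun ω : Cfg J n => Holds ω A)).card *
        (univ.filter (fun ω : Cfg J n => ∀ B ∈ S, ¬ Holds ω B)).card := by
    calc (univ.filter (fun ω : Cfg J n => Holds ω A ∧ ∀ B ∈ S, ¬ Holds ω B)).card *
          Fintype.card (Cfg J n)
        = ∑ ω' : Cfg J n,
          (univ.filter (fun ω : Cfg J n => Holds ω A ∧ ∀ B ∈ S, ¬ Holds ω B)).card := by
          rw [Finset.sum_const, Finset.card_univ, smul_eq_mul, mul_comm]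
      _ ≤ ∑ ω' : Cfg J n,
          (univ.filter (fun ω : Cfg J n => Sim A ω ω' ∧ ∀ B ∈ S, ¬ Holds ω B)).card :=
          Finset.sum_le_sum fun ω' _ => card_avoid_le A S hS ω₀ h0 ω'
      _ = ∑ ω' : Cfg J n, ∑ ω : Cfg J n, if (Sim A ω ω' ∧ ∀ B ∈ S, ¬ Holds ω B) then 1 else 0 := by
          refine Finset.sum_congr rfl fun ω' _ => ?_
          rw [Finset.card_filter]
      _ = ∑ ω : Cfg J n, ∑ ω' : Cfg J n, if (Sim A ω ω' ∧ ∀ B ∈ S, ¬ Holds ω B) then 1 else 0 :=
          Finset.sum_comm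
      _ ≤ ∑ ω : Cfg J n, if (∀ B ∈ S, ¬ Holds ω B) then
          (univ.filter (fun ω : Cfg J n => Holds ω A)).card else 0 := by
          refine Finset.sum_le_sum fun ω _ => ?_
          split_ifs with h
          · refine le_trans (le_of_eq ?_) (card_sim_le A ω₀ h0 ω)
            rw [Finset.card_filter]
            refine Finset.sum_congr rfl fun ω' _ => ?_
            have : (Sim A ω ω' ∧ ∀ B ∈ S, ¬ Holds ω B) ↔ Sim A ω' ω :=
              ⟨fun h => sim_symm h.1, fun h' => ⟨sim_symm h', h⟩⟩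
            simp only [this]
          · refine le_of_eq (Finset.sum_eq_zero fun ω' _ => ?_)
            rw [if_neg (fun h' => h h'.2)]
      _ = _ := by
          rw [← Finset.sum_filter, Finset.sum_const, smul_eq_mul, mul_comm]
  exact_mod_cast key

end Pool.Agent.Work.MP_db9399_all
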