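import Pool.Agent.Work.MP_db9399_all_helper72.EXPO

/-!
# Blocks PRC, PRD, PE1, PE3
-/

set_option autoImplicit false

namespace Pool.Agent.Work.MP_db9399_all

open Finset Classical

universe u v

namespace H72PR

theorem pr_nonneg {Ω : Type u} [Fintype Ω] (E : Ω → Prop) : 0 ≤ pr E := by
  unfold pr; positivity

theorem pr_mono {Ω : Type u} [Fintype Ω] {E F : Ω → Prop} (h : ∀ ω, E ω → F ω) : pr E ≤ pr F := by
  unfold pr
  refine div_le_div_of_nonneg_right ?_ (by positivity)
  have : (univ.filter E).card ≤ (univ.filter F).card :=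
    Finset.card_le_card (Finset.monotone_filter_right _ fun a _ h' => h a h')
  exact_mod_cast this

theorem pr_congr {Ω : Type u} [Fintype Ω] {E F : Ω → Prop} (h : ∀ ω, E ω ↔ F ω) : pr E = pr F :=
  le_antisymm (pr_mono fun ω => (h ω).1) (pr_mono fun ω => (h ω).2)

theorem pr_le_one {Ω : Type u} [Fintype Ω] (E : Ω → Prop) : pr E ≤ 1 := by
  unfold pr
  refine div_le_one_of_le₀ ?_ (by positivity)
  have : (univ.filter E).card ≤ Fintype.card Ω := by
    rw [← Finset.card_univ]; exact Finset.card_filter_le _ _
  exact_mod_cast this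

theorem pr_false {Ω : Type u} [Fintype Ω] {E : Ω → Prop} (h : ∀ ω, ¬ E ω) : pr E = 0 := by
  unfold pr
  rw [Finset.filter_eq_empty_iff.2 fun ω _ => h ω]
  simp

variable {J : Type u} [Fintype J] {n : ℕ}

theorem card_filter_block_le (Q : Finset (J × Fin n)) (j : J) :
    (Q.filter (fun p => p.1 = j)).card ≤ Q.card := Finset.card_filter_le _ _

/-- one step of an exposure, divided form -/
theorem expo_step (Q : Finset (J × Fin n)) (A : Cfg J n → Prop) (R : Cfg J n → Finset (Fin n))
    (p : J × Fin n) (hA : DepOn Q A) (hR : DepOn Q R) (hp : p ∉ Q) (hr : ∀ ω, (R ω).card ≤ 1)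
    (m : ℝ) (hm : 0 < m) (hQ : m ≤ (n : ℝ) - ((Q.filter (fun q => q.1 = p.1)).card : ℝ)) :
    pr (fun ω => A ω ∧ ω p.1 p.2 ∈ R ω) ≤ (1 / m) * pr A := by
  have h := stmt_EXPO J n Q A R p.1 p.2 1 hA hR hp
    (fun ω _ => (Finset.card_filter_le _ _).trans (hr ω))
  rw [Nat.cast_one, one_mul] at h
  rw [one_div, ← div_eq_inv_mul, le_div_iff₀ hm]
  have h1 := mul_le_mul_of_nonneg_right hQ (pr_nonneg (fun ω => A ω ∧ ω p.1 p.2 ∈ R ω))
  linarith

theorem depOn_holds (B : Finset (J × Fin n × Fin n)) :
    DepOn (B.image (fun α => (α.1, α.2.1))) (fun ω : Cfg J n => Holds ω B) := by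
  intro ω ω' h
  have key : ∀ α ∈ B, ω α.1 α.2.1 = ω' α.1 α.2.1 := fun α hα =>
    h (α.1, α.2.1) (Finset.mem_image_of_mem _ hα)
  refine propext ⟨fun h1 α hα => ?_, fun h1 α hα => ?_⟩
  · rw [← key α hα]; exact h1 α hα
  · rw [key α hα]; exact h1 α hα

theorem prc_aux (m : ℕ) (hmn : m ≤ n) (B : Finset (J × Fin n × Fin n)) (hB : B.card ≤ m) :
    pr (fun ω : Cfg J n => Holds ω B) ≤ (1 / ((n : ℝ) - m + 1)) ^ B.card := by
  have hpos : (0 : ℝ) < (n : ℝ) - m + 1 := by
    have : (m : ℝ) ≤ n := by exact_mod_cast hmn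
    linarith
  induction B using Finset.induction_on with
  | empty => simpa using pr_le_one _
  | insert β B hβ ih =>
    rw [Finset.card_insert_of_notMem hβ] at hB ⊢
    have ih' := ih (by omega)
    by_cases hin : (β.1, β.2.1) ∈ B.image (fun α => (α.1, α.2.1))
    · rw [pr_false]
      · positivity
      · intro ω hω
        obtain ⟨α, hα, he⟩ := Finset.mem_image.1 hin
        have h1 := hω α (Finset.mem_insert_of_mem hα)
        have h2 := hω β (Finset.mem_insert_self _ _)
        have e1 : α.1 = β.1 := (Prod.mk.inj he).1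
        have e2 : α.2.1 = β.2.1 := (Prod.mk.inj he).2
        have e3 : α.2.2 = β.2.2 := by rw [← h1, ← h2, e1, e2]
        apply hβ
        have : β = α := Prod.ext e1.symm (Prod.ext e2.symm e3.symm)
        rw [this]; exact hα
    · have h := expo_step (B.image (fun α => (α.1, α.2.1))) (fun ω : Cfg J n => Holds ω B)
        (fun _ => {β.2.2}) (β.1, β.2.1) (depOn_holds B) (fun _ _ _ => rfl) hin
        (fun ω => by simp) ((n : ℝ) - m + 1) hpos (by
          have h1 := (card_filter_block_le (B.image (fun α => (α.1, α.2.1))) β.1).trans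
            Finset.card_image_le
          have h2 : (((B.image (fun α => (α.1, α.2.1))).filter (fun q => q.1 = β.1)).card : ℝ) + 1
              ≤ m := by exact_mod_cast (by omega)
          linarith)
      rw [pow_succ', mul_comm]
      refine le_trans (le_of_eq (pr_congr fun ω => ?_)) (h.trans ?_)
      · constructor
        · intro h1
          refine ⟨fun α hα => h1 α (Finset.mem_insert_of_mem hα), ?_⟩
          rw [Finset.mem_singleton]
          exact h1 β (Finset.mem_insert_self _ _)
        · rintro ⟨h1, h2⟩ α hα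
          rw [Finset.mem_singleton] at h2
          rcases Finset.mem_insert.1 hα with rfl | hα
          · exact h2
          · exact h1 α hα
      · rw [mul_comm]
        exact mul_le_mul_of_nonneg_right ih' (by positivity)

end H72PR

open H72PR in
theorem stmt_PRC : Stmt_PRC.{u} := by
  intro J _ n B hB
  exact prc_aux B.card hB B le_rfl

open H72PR in
theorem stmt_PRD : Stmt_PRD.{u} := by
  intro J _ n β β' hne
  have hn : 0 < n := Fin.pos β.2.1
  have hnr : (0 : ℝ) < n := by exact_mod_cast hn
  have h1 : pr (fun ω : Cfg J n => Holds ω {β'}) ≤ 1 / n := by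
    have h := expo_step (∅ : Finset (J × Fin n)) (fun _ : Cfg J n => True)
      (fun _ => {β'.2.2}) (β'.1, β'.2.1) (fun _ _ _ => rfl) (fun _ _ _ => rfl) (by simp)
      (fun ω => by simp) (n : ℝ) hnr (by simp)
    refine le_trans (le_of_eq (pr_congr fun ω => ?_)) (h.trans ?_)
    · simp [Holds]
    · have := pr_le_one (fun _ : Cfg J n => True)
      have h2 : (0 : ℝ) ≤ 1 / n := by positivity
      nlinarith
  have h2 := expo_step ({(β'.1, β'.2.1)} : Finset (J × Fin n)) (fun ω : Cfg J n => Holds ω {β'})
    (fun _ => {β.2.2}) (β.1, β.2.1) (by simpa using depOn_holds ({β'} : Finset (J × Fin n × Fin n)))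
    (fun _ _ _ => rfl) (by
      rw [Finset.mem_singleton]
      intro h; exact hne (Prod.mk.inj h).1)
    (fun ω => by simp) (n : ℝ) hnr (by
      have : (({(β'.1, β'.2.1)} : Finset (J × Fin n)).filter (fun q => q.1 = β.1)) = ∅ := by
        rw [Finset.filter_eq_empty_iff]
        intro q hq
        rw [Finset.mem_singleton] at hq
        rw [hq]
        exact fun h => hne h.symm
      simp [this])
  refine le_trans (le_of_eq (pr_congr fun ω => ?_)) (h2.trans ?_)
  · unfold Holds
    simp only [Finset.mem_insert, Finset.mem_singleton]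
    constructor
    · intro h
      exact ⟨fun α hα => h α (Or.inr hα), h β (Or.inl rfl)⟩
    · rintro ⟨h1, h2⟩ α (rfl | hα)
      · exact h2
      · exact h1 α hα
  · rw [sq, ← one_div_mul_one_div]
    exact mul_le_mul_of_nonneg_left h1 (by positivity)

open H72PR in
theorem stmt_PE1 : Stmt_PE1.{u} := by
  intro J _ n e M g he hg hM
  have hpos : (0 : ℝ) < (n : ℝ) - 2 * M.card := by
    have : (2 * (M.card : ℝ)) < n := by exact_mod_cast hM
    linarith
  have key : ∀ M' : Finset (J × Fin n), M' ⊆ M →
      pr (fun ω : Cfg J n => ∀ p ∈ M', col e ω p = col e ω (g p)) ≤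
        (1 / ((n : ℝ) - 2 * M.card)) ^ M'.card := by
    intro M'
    induction M' using Finset.induction_on with
    | empty => intro _; simpa using pr_le_one _
    | insert p M' hp ih =>
      intro hsub
      have hpM : p ∈ M := hsub (Finset.mem_insert_self _ _)
      have hsub' : M' ⊆ M := fun x hx => hsub (Finset.mem_insert_of_mem hx)
      have ih' := ih hsub'
      rw [Finset.card_insert_of_notMem hp]
      have h := expo_step (M.image g ∪ M')
        (fun ω : Cfg J n => ∀ p ∈ M', col e ω p = col e ω (g p))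
        (fun ω => univ.filter (fun b => e p.1 b = col e ω (g p))) p
        (by
          intro ω ω' hω
          have k1 : ∀ q ∈ M', col e ω q = col e ω' q := fun q hq => by
            unfold col; rw [hω q (Finset.mem_union_right _ hq)]
          have k2 : ∀ q ∈ M', col e ω (g q) = col e ω' (g q) := fun q hq => by
            unfold col
            rw [hω (g q) (Finset.mem_union_left _ (Finset.mem_image_of_mem _ (hsub' hq)))]
          refine propext ⟨fun h q hq => ?_, fun h q hq => ?_⟩
          · rw [← k1 q hq, ← k2 q hq]; exact h q hq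
          · rw [k1 q hq, k2 q hq]; exact h q hq)
        (by
          intro ω ω' hω
          have k2 : col e ω (g p) = col e ω' (g p) := by
            unfold col
            rw [hω (g p) (Finset.mem_union_left _ (Finset.mem_image_of_mem _ hpM))]
          simp only [k2])
        (by
          rw [Finset.mem_union, not_or]
          refine ⟨fun h => ?_, hp⟩
          obtain ⟨q, hq, hqp⟩ := Finset.mem_image.1 h
          exact hg q hq (hqp ▸ hpM))
        (fun ω => by
          rw [Finset.card_le_one]
          intro a ha b hb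
          exact he p.1 ((Finset.mem_filter.1 ha).2.trans (Finset.mem_filter.1 hb).2.symm))
        ((n : ℝ) - 2 * M.card) hpos (by
          have h1 := card_filter_block_le (M.image g ∪ M') p.1
          have h2 := Finset.card_union_le (M.image g) M'
          have h3 : (M.image g).card ≤ M.card := Finset.card_image_le
          have h4 : M'.card ≤ M.card := Finset.card_le_card hsub'
          have h5 : (((M.image g ∪ M').filter (fun q => q.1 = p.1)).card : ℝ) ≤ 2 * M.card := by
            exact_mod_cast (by omega)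
          linarith)
      rw [pow_succ', mul_comm]
      refine le_trans (le_of_eq (pr_congr fun ω => ?_)) (h.trans ?_)
      · constructor
        · intro h1
          refine ⟨fun q hq => h1 q (Finset.mem_insert_of_mem hq), ?_⟩
          rw [Finset.mem_filter]
          exact ⟨mem_univ _, h1 p (Finset.mem_insert_self _ _)⟩
        · rintro ⟨h1, h2⟩ q hq
          rcases Finset.mem_insert.1 hq with rfl | hq
          · exact (Finset.mem_filter.1 h2).2
          · exact h1 q hq
      · rw [mul_comm]
        exact mul_le_mul_of_nonneg_right ih' (by positivity)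
  exact key M (Finset.Subset.refl _)

namespace H72PR

variable {J : Type u} [Fintype J] {n : ℕ}

theorem cs_congr (e : J → Fin n → ℕ) (Y : Finset (J × Fin n)) (ω ω' : Cfg J n)
    (h : ∀ p ∈ Y, ω p.1 p.2 = ω' p.1 p.2) : cs e ω Y = cs e ω' Y := by
  unfold cs
  refine Finset.image_congr fun p hp => ?_
  unfold col
  rw [h p hp]

/-- avoiding the colours of `Y` -/
theorem pe3_aux (h : ℕ) (e : J → Fin n → ℕ) (Y Z : Finset (J × Fin n)) (r : ℕ)
    (he : ∀ j, Function.Injective (e j)) (hlt : ∀ j a, e j a < n + h)
    (hYZ : ∀ p ∈ Y, ∀ q ∈ Z, p.1 ≠ q.1) (hr : r ≤ n) (Z1 : Finset (J × Fin n)) (hZ1 : Z1 ⊆ Z) :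
    pr (fun ω : Cfg J n => r + h ≤ (cs e ω Y).card ∧ ∀ q ∈ Z1, col e ω q ∉ cs e ω Y) ≤
      (1 - (r : ℝ) / n) ^ Z1.card := by
  induction Z1 using Finset.induction_on with
  | empty => simpa using pr_le_one _
  | insert p Z1 hp ih =>
    have hpZ : p ∈ Z := hZ1 (Finset.mem_insert_self _ _)
    have hsub : Z1 ⊆ Z := fun x hx => hZ1 (Finset.mem_insert_of_mem hx)
    have ih' := ih hsub
    have hn : 0 < n := Fin.pos p.2
    have hnr : (0 : ℝ) < n := by exact_mod_cast hn
    have hrr : (r : ℝ) ≤ n := by exact_mod_cast hr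
    rw [Finset.card_insert_of_notMem hp]
    set A : Cfg J n → Prop := fun ω => r + h ≤ (cs e ω Y).card ∧ ∀ q ∈ Z1, col e ω q ∉ cs e ω Y
      with hA
    set R : Cfg J n → Finset (Fin n) := fun ω => univ.filter (fun b => e p.1 b ∉ cs e ω Y) with hR
    set z := (Z1.filter (fun q => q.1 = p.1)).card with hz
    have hzn : z + 1 ≤ n := by
      have h1 : (insert p (Z1.filter (fun q => q.1 = p.1))).card ≤ (univ : Finset (Fin n)).card := by
        refine Finset.card_le_card_of_injOn Prod.snd (fun _ _ => Finset.mem_coe.2 (mem_univ _)) ?_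
        have hb : ∀ x ∈ insert p (Z1.filter (fun q => q.1 = p.1)), x.1 = p.1 := by
          intro x hx
          rcases Finset.mem_insert.1 hx with rfl | hx
          · rfl
          · exact (Finset.mem_filter.1 hx).2
        intro x hx y hy hxy
        exact Prod.ext ((hb x hx).trans (hb y hy).symm) hxy
      rw [Finset.card_insert_of_notMem (fun h => hp (Finset.mem_filter.1 h).1), Finset.card_univ,
        Fintype.card_fin] at h1
      exact h1
    have hex := stmt_EXPO J n (Y ∪ Z1) A R p.1 p.2 (n - r - z)
      (by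
        intro ω ω' hω
        have k1 := cs_congr e Y ω ω' fun q hq => hω q (Finset.mem_union_left _ hq)
        have k2 : ∀ q ∈ Z1, col e ω q = col e ω' q := fun q hq => by
          unfold col; rw [hω q (Finset.mem_union_right _ hq)]
        simp only [hA, k1]
        refine propext (and_congr_right fun _ => ⟨fun h q hq => ?_, fun h q hq => ?_⟩)
        · rw [← k2 q hq]; exact h q hq
        · rw [k2 q hq]; exact h q hq)
      (by
        intro ω ω' hω
        have k1 := cs_congr e Y ω ω' fun q hq => hω q (Finset.mem_union_left _ hq)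
        simp only [hR, k1])
      (by
        rw [Finset.mem_union, not_or]
        exact ⟨fun h => hYZ p h p hpZ rfl, hp⟩)
      (by
        intro ω hω
        -- colours of the palette in `cs Y`
        have c1 : r ≤ (univ.filter (fun b : Fin n => e p.1 b ∈ cs e ω Y)).card := by
          have i1 : (univ.image (e p.1)).card = n := by
            rw [Finset.card_image_of_injective _ (he p.1), Finset.card_univ, Fintype.card_fin]
          have i2 : (univ.image (e p.1)) ∪ cs e ω Y ⊆ range (n + h) := by
            intro c hc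
            rw [Finset.mem_range]
            rcases Finset.mem_union.1 hc with hc | hc
            · obtain ⟨b, _, rfl⟩ := Finset.mem_image.1 hc
              exact hlt _ _
            · obtain ⟨q, _, rfl⟩ := Finset.mem_image.1 hc
              exact hlt _ _
          have i3 := Finset.card_le_card i2
          rw [Finset.card_range] at i3
          have i4 := Finset.card_union_add_card_inter (univ.image (e p.1)) (cs e ω Y)
          have i5 : ((univ.image (e p.1)) ∩ cs e ω Y).card ≤
              (univ.filter (fun b : Fin n => e p.1 b ∈ cs e ω Y)).card := by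
            refine (Finset.card_le_card ?_).trans (Finset.card_image_le (f := e p.1))
            intro c hc
            obtain ⟨h1, h2⟩ := Finset.mem_inter.1 hc
            obtain ⟨b, _, rfl⟩ := Finset.mem_image.1 h1
            exact Finset.mem_image_of_mem _ (Finset.mem_filter.2 ⟨mem_univ _, h2⟩)
          have := hω.1
          omega
        have c2 : (univ.filter (fun b : Fin n => e p.1 b ∈ cs e ω Y)).card + (R ω).card = n := by
          have := Finset.card_filter_add_card_filter_not (s := (univ : Finset (Fin n)))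
            (fun b : Fin n => e p.1 b ∈ cs e ω Y)
          rw [Finset.card_univ, Fintype.card_fin] at this
          simpa [hR] using this
        have c3 : ((R ω).filter (fun b => ∀ q ∈ Y ∪ Z1, q.1 = p.1 → ω p.1 q.2 ≠ b)).card + z ≤
            (R ω).card := by
          have d1 : ((Z1.filter (fun q => q.1 = p.1)).image (fun q => ω p.1 q.2)).card = z := by
            rw [hz]
            refine Finset.card_image_of_injOn ?_
            intro x hx y hy hxy
            have hx1 := (Finset.mem_filter.1 (Finset.mem_coe.1 hx)).2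
            have hy1 := (Finset.mem_filter.1 (Finset.mem_coe.1 hy)).2
            exact Prod.ext (hx1.trans hy1.symm) ((ω p.1).injective hxy)
          rw [← d1, ← Finset.card_union_of_disjoint]
          · refine Finset.card_le_card fun b hb => ?_
            rcases Finset.mem_union.1 hb with hb | hb
            · exact (Finset.mem_filter.1 hb).1
            · obtain ⟨q, hq, rfl⟩ := Finset.mem_image.1 hb
              obtain ⟨hq1, hq2⟩ := Finset.mem_filter.1 hq
              refine Finset.mem_filter.2 ⟨mem_univ _, ?_⟩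
              have := hω.2 q hq1
              unfold col at this
              rw [hq2] at this
              exact this
          · rw [Finset.disjoint_left]
            intro b hb hb'
            obtain ⟨q, hq, rfl⟩ := Finset.mem_image.1 hb'
            obtain ⟨hq1, hq2⟩ := Finset.mem_filter.1 hq
            exact (Finset.mem_filter.1 hb).2 q (Finset.mem_union_right _ hq1) hq2 rfl
        omega)
    have hQ : ((Y ∪ Z1).filter (fun q => q.1 = p.1)).card = z := by
      rw [hz]
      congr 1
      ext q
      simp only [Finset.mem_filter, Finset.mem_union]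
      constructor
      · rintro ⟨h1 | h1, h2⟩
        · exact absurd h2 (hYZ q h1 p hpZ)
        · exact ⟨h1, h2⟩
      · rintro ⟨h1, h2⟩
        exact ⟨Or.inr h1, h2⟩
    rw [hQ] at hex
    have hzr : (z : ℝ) + 1 ≤ n := by exact_mod_cast hzn
    have hfac : ((n - r - z : ℕ) : ℝ) ≤ (1 - (r : ℝ) / n) * ((n : ℝ) - z) := by
      have hnn : 0 ≤ (1 - (r : ℝ) / n) := by
        rw [sub_nonneg, div_le_one hnr]; exact hrr
      by_cases hc : r + z ≤ n
      · have e1 : ((n - r - z : ℕ) : ℝ) = (n : ℝ) - r - z := by
          rw [Nat.sub_sub, Nat.cast_sub hc]; push_cast; ring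
        rw [e1]
        have e2 : (1 - (r : ℝ) / n) * ((n : ℝ) - z) = (n : ℝ) - r - z + r * z / n := by
          field_simp; ring
        rw [e2]
        have : 0 ≤ (r : ℝ) * z / n := by positivity
        linarith
      · have e1 : n - r - z = 0 := by omega
        rw [e1, Nat.cast_zero]
        exact mul_nonneg hnn (by linarith)
    have hstep : pr (fun ω => A ω ∧ ω p.1 p.2 ∈ R ω) ≤ (1 - (r : ℝ) / n) * pr A := by
      have hA0 := pr_nonneg A
      have h1 : ((n : ℝ) - z) * pr (fun ω => A ω ∧ ω p.1 p.2 ∈ R ω) ≤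
          ((n : ℝ) - z) * ((1 - (r : ℝ) / n) * pr A) := by
        refine hex.trans ?_
        calc ((n - r - z : ℕ) : ℝ) * pr A ≤ ((1 - (r : ℝ) / n) * ((n : ℝ) - z)) * pr A :=
              mul_le_mul_of_nonneg_right hfac hA0
          _ = _ := by ring
      exact le_of_mul_le_mul_left h1 (by linarith)
    rw [pow_succ', ]
    refine le_trans (le_of_eq (pr_congr fun ω => ?_)) (hstep.trans ?_)
    · simp only [hA, hR, Finset.mem_filter, Finset.mem_univ, true_and]
      constructor
      · rintro ⟨h1, h2⟩
        exact ⟨⟨h1, fun q hq => h2 q (Finset.mem_insert_of_mem hq)⟩,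
          h2 p (Finset.mem_insert_self _ _)⟩
      · rintro ⟨⟨h1, h2⟩, h3⟩
        refine ⟨h1, fun q hq => ?_⟩
        rcases Finset.mem_insert.1 hq with rfl | hq
        · exact h3
        · exact h2 q hq
    · refine mul_le_mul_of_nonneg_left ih' ?_
      rw [sub_nonneg, div_le_one hnr]; exact hrr

end H72PR

open H72PR in
theorem stmt_PE3 : Stmt_PE3.{u} := by
  intro J _ n h e Y Z g r he hlt hYZ hr
  have hΩ : (0 : ℝ) < (Fintype.card (Cfg J n) : ℝ) := by
    have : 0 < Fintype.card (Cfg J n) := Fintype.card_pos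
    exact_mod_cast this
  set A0 : Cfg J n → Prop := fun ω => r + h ≤ (cs e ω Y).card with hA0
  have hcount : 2 ^ Z.card * (univ.filter (fun ω : Cfg J n => A0 ω ∧
      (Z.filter (fun p => col e ω p ∈ cs e ω Y)).card < g)).card ≤
      2 ^ g * ∑ Z1 ∈ Z.powerset, (univ.filter (fun ω : Cfg J n => A0 ω ∧
        ∀ q ∈ Z1, col e ω q ∉ cs e ω Y)).card := by
    have e1 : ∑ Z1 ∈ Z.powerset, (univ.filter (fun ω : Cfg J n => A0 ω ∧
        ∀ q ∈ Z1, col e ω q ∉ cs e ω Y)).card =
        ∑ ω : Cfg J n, (Z.powerset.filter (fun Z1 => A0 ω ∧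
          ∀ q ∈ Z1, col e ω q ∉ cs e ω Y)).card := by
      simp only [Finset.card_filter]
      exact Finset.sum_comm
    rw [e1, Finset.card_filter, Finset.mul_sum, Finset.mul_sum]
    refine Finset.sum_le_sum fun ω _ => ?_
    split_ifs with hω
    swap
    · exact Nat.zero_le _
    rw [mul_one]
    have e2 : (Z.powerset.filter (fun Z1 => A0 ω ∧ ∀ q ∈ Z1, col e ω q ∉ cs e ω Y)) =
        (Z.filter (fun p => ¬ col e ω p ∈ cs e ω Y)).powerset := by
      ext Z1
      simp only [Finset.mem_filter, Finset.mem_powerset]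
      constructor
      · rintro ⟨h1, _, h3⟩ q hq
        exact Finset.mem_filter.2 ⟨h1 hq, h3 q hq⟩
      · intro h1
        refine ⟨fun q hq => (Finset.mem_filter.1 (h1 hq)).1, hω.1, fun q hq =>
          (Finset.mem_filter.1 (h1 hq)).2⟩
    rw [e2, Finset.card_powerset, ← pow_add]
    refine Nat.pow_le_pow_right (by norm_num) ?_
    have e3 := Finset.card_filter_add_card_filter_not (s := Z)
      (fun p => col e ω p ∈ cs e ω Y)
    have := hω.2
    omega
  have hpr : (2 : ℝ) ^ Z.card * pr (fun ω : Cfg J n => A0 ω ∧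
      (Z.filter (fun p => col e ω p ∈ cs e ω Y)).card < g) ≤
      2 ^ g * ∑ Z1 ∈ Z.powerset, pr (fun ω : Cfg J n => A0 ω ∧
        ∀ q ∈ Z1, col e ω q ∉ cs e ω Y) := by
    unfold pr
    rw [← Finset.sum_div, ← mul_div_assoc, ← mul_div_assoc, div_le_div_iff_of_pos_right hΩ]
    have hcount' : (2 : ℝ) ^ Z.card * ((univ.filter (fun ω : Cfg J n => A0 ω ∧
        (Z.filter (fun p => col e ω p ∈ cs e ω Y)).card < g)).card : ℝ) ≤
        2 ^ g * ∑ Z1 ∈ Z.powerset, ((univ.filter (fun ω : Cfg J n => A0 ω ∧
          ∀ q ∈ Z1, col e ω q ∉ cs e ω Y)).card : ℝ) := by exact_mod_cast hcount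
    refine le_trans (le_of_eq ?_) (hcount'.trans (le_of_eq ?_))
    · congr!
    · congr!
  have hsum : ∑ Z1 ∈ Z.powerset, pr (fun ω : Cfg J n => A0 ω ∧
        ∀ q ∈ Z1, col e ω q ∉ cs e ω Y) ≤ (2 - (r : ℝ) / n) ^ Z.card := by
    calc ∑ Z1 ∈ Z.powerset, pr (fun ω : Cfg J n => A0 ω ∧
          ∀ q ∈ Z1, col e ω q ∉ cs e ω Y)
        ≤ ∑ Z1 ∈ Z.powerset, (1 - (r : ℝ) / n) ^ Z1.card * 1 ^ (Z.card - Z1.card) := by
          refine Finset.sum_le_sum fun Z1 hZ1 => ?_
          rw [one_pow, mul_one]
          exact pe3_aux h e Y Z r he hlt hYZ hr Z1 (Finset.mem_powerset.1 hZ1)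
      _ = ((1 - (r : ℝ) / n) + 1) ^ Z.card := Finset.sum_pow_mul_eq_add_pow _ _ _
      _ = _ := by ring
  have h2 : (0 : ℝ) < 2 ^ Z.card := by positivity
  refine le_of_mul_le_mul_left ?_ h2
  refine hpr.trans ?_
  calc (2 : ℝ) ^ g * ∑ Z1 ∈ Z.powerset, pr (fun ω : Cfg J n => A0 ω ∧
        ∀ q ∈ Z1, col e ω q ∉ cs e ω Y) ≤ 2 ^ g * (2 - (r : ℝ) / n) ^ Z.card :=
        mul_le_mul_of_nonneg_left hsum (by positivity)
    _ = 2 ^ Z.card * (2 ^ g * (1 - (r : ℝ) / (2 * n)) ^ Z.card) := by
        have : (2 : ℝ) - (r : ℝ) / n = 2 * (1 - (r : ℝ) / (2 * n)) := by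
          rw [mul_sub, mul_one, ← mul_div_assoc, mul_div_mul_left _ _ (by norm_num : (2 : ℝ) ≠ 0)]
        rw [this, mul_pow]; ring

end Pool.Agent.Work.MP_db9399_all
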